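import Pool.Agent.Helper11.PK.Defs
import Pool.Agent.Helper83.PC.NEU

/-!
# Packet PK PTIN: inverses of series on an ordered group, with tameness

Port of Helper38/PC/TIN.lean from the rationals to an arbitrary field.
-/

namespace Pool.Agent.Helper32.PK.PTIN

open Pool.Agent.Helper11.PK

universe u v w

/-- The statement of PGEO for all ordered groups. -/
def S_PGEO (k : Type) [Field k] : Prop := ∀ (G : Type u) [Group G] [LinearOrder G] [MulLeftStrictMono G]
  [MulRightStrictMono G] (y : G → k), (Function.support y).IsPWO → (∀ x, y x ≠ 0 → 1 < x) →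
    ∃ z : G → k, (∀ x, z x ≠ 0 → ∃ l : List G, (∀ t ∈ l, y t ≠ 0) ∧ l.prod = x) ∧
      conv (fun x => mono 1 1 x - y x) z = mono 1 1 ∧
      conv z (fun x => mono 1 1 x - y x) = mono 1 1

/-- Lists with given image entries: finitely many. -/
theorem finite_lists {G : Type u} {N : Type v} (p : G → N) (P : G → Prop)
    (hfib : ∀ t : N, {x : G | p x = t ∧ P x}.Finite) (m : List N) :
    {l : List G | l.map p = m ∧ ∀ z ∈ l, P z}.Finite := by
  induction m with
  | nil =>
    refine (Set.finite_singleton ([] : List G)).subset ?_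
    rintro l ⟨hl, -⟩
    simpa using hl
  | cons a m ih =>
    refine (Set.Finite.image2 (fun x l => x :: l) (hfib a) ih).subset ?_
    rintro l ⟨hl, hP⟩
    cases l with
    | nil => simp at hl
    | cons x l =>
      rw [List.map_cons, List.cons.injEq] at hl
      exact ⟨x, ⟨hl.1, hP x List.mem_cons_self⟩, l,
        ⟨hl.2, fun z hz => hP z (List.mem_cons_of_mem _ hz)⟩, rfl⟩

theorem ptin {k : Type} [Field k] (hGEO : S_PGEO.{u} k) {G : Type u} [Group G] [LinearOrder G]
    [MulLeftStrictMono G] [MulRightStrictMono G]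
    {f : G → k} (hf : (Function.support f).IsPWO) (hne : f ≠ 0)
    {N : ℕ → Type u} [∀ i, Group (N i)] [∀ i, LinearOrder (N i)]
    [∀ i, MulLeftStrictMono (N i)] [∀ i, MulRightStrictMono (N i)]
    (p : ∀ i, G →* N i) (hp : ∀ i, Monotone (p i))
    (hker : ∀ i j, i ≤ j → ∀ x, p j x = 1 → p i x = 1)
    (hsep : ∀ x, x ≠ 1 → ∃ i, p i x ≠ 1)
    (hft : ∃ i₀, ∀ i, i₀ ≤ i → Tame (p i) f) :
    ∃ g : G → k, (Function.support g).IsPWO ∧ conv f g = mono 1 1 ∧ conv g f = mono 1 1 ∧
      (∀ B : Subgroup G, (∀ x, f x ≠ 0 → x ∈ B) → ∀ x, g x ≠ 0 → x ∈ B) ∧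
      ∃ i₁, ∀ i, i₁ ≤ i → Tame (p i) g := by
  classical
  have mulL : ∀ {H : Type u} [Group H] [LinearOrder H] [MulLeftStrictMono H] (a : H),
      Monotone (fun x : H => a * x) := by
    intro H _ _ _ a x y hxy
    rcases hxy.eq_or_lt with h | h
    · rw [h]
    · exact (mul_right_strictMono (a := a) h).le
  have mulR : ∀ {H : Type u} [Group H] [LinearOrder H] [MulRightStrictMono H] (a : H),
      Monotone (fun x : H => x * a) := by
    intro H _ _ _ a x y hxy
    rcases hxy.eq_or_lt with h | h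
    · rw [h]
    · exact (mul_left_strictMono (a := a) h).le
  have hnes : (Function.support f).Nonempty := Function.support_nonempty_iff.2 hne
  obtain ⟨g0, hg0, hmin⟩ : ∃ g0, f g0 ≠ 0 ∧ ∀ x, f x ≠ 0 → g0 ≤ x := by
    refine ⟨hf.isWF.min hnes, hf.isWF.min_mem hnes, fun x hx => ?_⟩
    exact hf.isWF.min_le hnes hx
  set q : k := f g0 with hq
  set y : G → k := fun x => mono 1 1 x - q⁻¹ * f (g0 * x) with hy
  have hy1 : y 1 = 0 := by
    show mono 1 1 1 - q⁻¹ * f (g0 * 1) = 0
    rw [mul_one, ← hq, inv_mul_cancel₀ hg0]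
    unfold mono
    rw [if_pos rfl, sub_self]
  have hyne : ∀ x, y x ≠ 0 → x ≠ 1 ∧ f (g0 * x) ≠ 0 := by
    intro x hx
    have h1 : x ≠ 1 := fun h => hx (by rw [h, hy1])
    refine ⟨h1, fun h => hx ?_⟩
    simp only [hy, mono, if_neg h1, h, mul_zero, sub_zero]
  have hylt : ∀ x, y x ≠ 0 → 1 < x := by
    intro x hx
    obtain ⟨h1, h2⟩ := hyne x hx
    rcases lt_trichotomy x 1 with h | h | h
    · exfalso
      have h3 : g0 * x < g0 * 1 := mul_right_strictMono (a := g0) h
      rw [mul_one] at h3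
      exact absurd (hmin _ h2) (not_le.2 h3)
    · exact absurd h h1
    · exact h
  have hysub : Function.support y ⊆ (fun x => g0⁻¹ * x) '' Function.support f := by
    intro x hx
    exact ⟨g0 * x, (hyne x hx).2, by simp⟩
  have hypwo : (Function.support y).IsPWO :=
    (hf.image_of_monotone (mulL g0⁻¹)).mono hysub
  obtain ⟨z, hz1, hz2, hz3⟩ := hGEO G y hypwo hylt
  have hf' : (fun x => mono 1 1 x - y x) = fun x => q⁻¹ * f (g0 * x) := by
    funext x
    simp only [hy]
    ring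
  rw [hf'] at hz2 hz3
  set g : G → k := fun x => q⁻¹ * z (x * g0) with hg
  have hgz : ∀ x, g x ≠ 0 → z (x * g0) ≠ 0 := by
    intro x hx h
    exact hx (by simp only [hg, h, mul_zero])
  have hP := Pool.Agent.Helper83.PC.neu (S := Function.support y) hypwo (fun x hx => hylt x hx)
  have hgsub : Function.support g ⊆ (fun x => x * g0⁻¹) ''
      {x : G | ∃ l : List G, (∀ z ∈ l, z ∈ Function.support y) ∧ l.prod = x} := by
    intro x hx
    refine ⟨x * g0, hz1 _ (hgz x hx), by simp⟩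
  refine ⟨g, (hP.1.image_of_monotone (mulR g0⁻¹)).mono hgsub, ?_, ?_, ?_, ?_⟩
  · funext x
    have h1 : conv f g x = conv (fun x => q⁻¹ * f (g0 * x)) z (g0⁻¹ * x * g0) := by
      unfold conv
      rw [← finsum_comp_equiv (Equiv.mulLeft g0)]
      refine finsum_congr fun b => ?_
      simp only [hg, Equiv.coe_mulLeft]
      have : (g0 * b)⁻¹ * x * g0 = b⁻¹ * (g0⁻¹ * x * g0) := by group
      rw [this]
      ring
    rw [h1, hz2]
    have h2 : (g0⁻¹ * x * g0 = 1) ↔ x = 1 := by
      constructor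
      · intro h
        have := congrArg (fun t => g0 * t * g0⁻¹) h
        simpa [mul_assoc] using this
      · rintro rfl
        group
    simp only [mono]
    by_cases hx : x = 1
    · rw [if_pos (h2.2 hx), if_pos hx]
    · rw [if_neg (fun h => hx (h2.1 h)), if_neg hx]
  · funext x
    have h1 : conv g f x = conv z (fun x => q⁻¹ * f (g0 * x)) x := by
      unfold conv
      rw [← finsum_comp_equiv (Equiv.mulRight g0⁻¹)]
      refine finsum_congr fun b => ?_
      simp only [hg, Equiv.coe_mulRight]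
      have h2 : (b * g0⁻¹)⁻¹ * x = g0 * (b⁻¹ * x) := by group
      have h3 : b * g0⁻¹ * g0 = b := by group
      rw [h2, h3]
      ring
    rw [h1, hz3]
  · intro B hB x hx
    obtain ⟨l, hl, hlx⟩ := hz1 _ (hgz x hx)
    have hg0B : g0 ∈ B := hB g0 hg0
    have h1 : l.prod ∈ B := by
      refine Subgroup.list_prod_mem B fun t ht => ?_
      have h2 := hB _ (hyne t (hl t ht)).2
      exact (Subgroup.mul_mem_cancel_left B hg0B).1 h2
    rw [hlx] at h1
    exact (Subgroup.mul_mem_cancel_right B hg0B).1 h1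
  · obtain ⟨i₀, hi₀⟩ := hft
    -- fibres and images of `supp y`
    have yfib : ∀ i, i₀ ≤ i → ∀ t : N i, {x : G | p i x = t ∧ y x ≠ 0}.Finite := by
      intro i hi t
      refine (((hi₀ i hi).fib (p i g0 * t)).image (fun x => g0⁻¹ * x)).subset ?_
      rintro x ⟨hx1, hx2⟩
      exact ⟨g0 * x, ⟨by rw [map_mul, hx1], (hyne x hx2).2⟩, by simp⟩
    have ypwo : ∀ i, i₀ ≤ i → (p i '' Function.support y).IsPWO := by
      intro i hi
      refine ((hi₀ i hi).pwo.image_of_monotone (mulL (p i g0)⁻¹)).mono ?_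
      rintro _ ⟨x, hx, rfl⟩
      refine ⟨p i (g0 * x), ⟨g0 * x, (hyne x hx).2, rfl⟩, ?_⟩
      simp
    -- the index `i₁`
    have hfin : {x : G | p i₀ x = 1 ∧ y x ≠ 0}.Finite := yfib i₀ le_rfl 1
    have hex : ∀ x : G, ∃ i : ℕ, x ≠ 1 → p i x ≠ 1 := by
      intro x
      by_cases hx : x = 1
      · exact ⟨0, fun h => absurd hx h⟩
      · obtain ⟨i, hi⟩ := hsep x hx
        exact ⟨i, fun _ => hi⟩
    choose ind hind using hex
    refine ⟨max i₀ (hfin.toFinset.sup ind), fun i hi => ?_⟩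
    have hi0 : i₀ ≤ i := le_trans (le_max_left _ _) hi
    have hne1 : ∀ x, y x ≠ 0 → p i x ≠ 1 := by
      intro x hx h
      have h0 : p i₀ x = 1 := hker i₀ i hi0 x h
      have hmem : x ∈ hfin.toFinset := hfin.mem_toFinset.2 ⟨h0, hx⟩
      have h1 : ind x ≤ i := le_trans (Finset.le_sup hmem) (le_trans (le_max_right _ _) hi)
      exact hind x (hyne x hx).1 (hker (ind x) i h1 x h)
    have hgt : ∀ s ∈ p i '' Function.support y, 1 < s := by
      rintro _ ⟨x, hx, rfl⟩
      have h1 : p i 1 ≤ p i x := hp i (hylt x hx).le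
      rw [map_one] at h1
      exact lt_of_le_of_ne h1 (Ne.symm (hne1 x hx))
    obtain ⟨hQ1, hQ2⟩ := Pool.Agent.Helper83.PC.neu (S := p i '' Function.support y) (ypwo i hi0) hgt
    refine ⟨fun t => ?_, ?_⟩
    · have hA : {l : List G | (∀ s ∈ l, y s ≠ 0) ∧ (l.map (p i)).prod = t * p i g0}.Finite := by
        refine ((hQ2 (t * p i g0)).biUnion (t := fun m => {l : List G | l.map (p i) = m ∧
          ∀ s ∈ l, y s ≠ 0}) fun m _ => finite_lists (p i) (fun x => y x ≠ 0)
            (yfib i hi0) m).subset ?_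
        rintro l ⟨hl1, hl2⟩
        refine Set.mem_biUnion (x := l.map (p i)) ⟨?_, hl2⟩ ⟨rfl, hl1⟩
        intro s hs
        obtain ⟨x, hx, rfl⟩ := List.mem_map.1 hs
        exact ⟨x, hl1 x hx, rfl⟩
      refine (hA.image (fun l => l.prod * g0⁻¹)).subset ?_
      rintro x ⟨hx1, hx2⟩
      obtain ⟨l, hl, hlx⟩ := hz1 _ (hgz x hx2)
      refine ⟨l, ⟨hl, ?_⟩, ?_⟩
      · rw [← map_list_prod, hlx, map_mul, hx1]
      · show l.prod * g0⁻¹ = x
        rw [hlx]
        group
    · refine (hQ1.image_of_monotone (mulR (p i g0)⁻¹)).mono ?_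
      rintro _ ⟨x, hx, rfl⟩
      obtain ⟨l, hl, hlx⟩ := hz1 _ (hgz x hx)
      refine ⟨(l.map (p i)).prod, ⟨l.map (p i), ?_, rfl⟩, ?_⟩
      · intro s hs
        obtain ⟨t, ht, rfl⟩ := List.mem_map.1 hs
        exact ⟨t, hl t ht, rfl⟩
      · show (l.map (p i)).prod * (p i g0)⁻¹ = p i x
        rw [← map_list_prod, hlx, map_mul]
        group

end Pool.Agent.Helper32.PK.PTIN
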