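import Pool.Agent.Helper11.PK.Defs

/-!
# Packet PK NILP: the augmentation ideal of the mod p group algebra of a finite p-group is nilpotent
-/

namespace Pool.Agent.Helper32.PK.NILP

open Pool.Agent.Helper11.PK MonoidAlgebra

universe u

section

variable {k : Type} [Field k] {Q : Type u} [Group Q]

/-- The dual action. -/
noncomputable def dact (M : Ideal (MonoidAlgebra k Q)) (g : Q) (f : M →ₗ[k] k) : M →ₗ[k] k where
  toFun x := f (gl k g⁻¹ • x)
  map_add' x y := by rw [smul_add, map_add]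
  map_smul' c x := by
    rw [smul_comm, map_smul]; rfl

noncomputable instance dualAction (M : Ideal (MonoidAlgebra k Q)) : MulAction Q (M →ₗ[k] k) where
  smul g f := dact M g f
  one_smul f := by
    ext x
    show f (gl k (1 : Q)⁻¹ • x) = f x
    rw [inv_one]
    show f ((1 : MonoidAlgebra k Q) • x) = f x
    rw [one_smul]
  mul_smul g h f := by
    ext x
    show f (gl k (g * h)⁻¹ • x) = f (gl k h⁻¹ • (gl k g⁻¹ • x))
    rw [smul_smul, MonoidAlgebra.single_mul_single, mul_inv_rev, one_mul]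

theorem smul_def' (M : Ideal (MonoidAlgebra k Q)) (g : Q) (f : M →ₗ[k] k) (x : M) :
    (g • f) x = f (gl k g⁻¹ • x) := rfl

theorem fixed_eval (M : Ideal (MonoidAlgebra k Q)) (f : M →ₗ[k] k)
    (hf : ∀ g : Q, g • f = f) (a : MonoidAlgebra k Q) (x : M) :
    f (a • x) = augHom k Q a * f x := by
  induction a using MonoidAlgebra.induction_linear with
  | zero => simp
  | add a b ha hb => rw [add_smul, map_add, ha, hb, map_add, add_mul]
  | single g c =>
    have h1 : (MonoidAlgebra.single g c : MonoidAlgebra k Q) = c • gl k g := by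
      simp [gl]
    have h2 := congrArg (fun t => t x) (hf g⁻¹)
    simp only [smul_def', inv_inv] at h2
    rw [h1, smul_assoc, map_smul, h2, map_smul]
    simp [augHom, gl]

end

theorem nilp (p : ℕ) [Fact p.Prime] {Q : Type u} [Group Q] [Finite Q] (hQ : IsPGroup p Q) :
    ∃ q : ℕ, (aug (ZMod p) Q) ^ q = ⊥ := by
  classical
  have hfin0 : Finite (Q →₀ ZMod p) := Finite.of_injective (fun f : Q →₀ ZMod p => (f : Q → ZMod p))
    DFunLike.coe_injective
  have hfin : Finite (MonoidAlgebra (ZMod p) Q) :=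
    Finite.of_injective _ (MonoidAlgebra.coeff_injective (R := ZMod p) (M := Q))
  have key : ∀ M : Ideal (MonoidAlgebra (ZMod p) Q), M ≤ aug (ZMod p) Q * M → M = ⊥ := by
    intro M hM
    by_contra hne
    obtain ⟨m, hm, hm0⟩ := Submodule.exists_mem_ne_zero_of_ne_bot hne
    have hfinM : Finite M := Finite.of_injective _ Subtype.val_injective
    have hfinD : Finite (M →ₗ[ZMod p] ZMod p) :=
      Finite.of_injective (fun f : M →ₗ[ZMod p] ZMod p => (f : M → ZMod p)) DFunLike.coe_injective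
    have hex : ∃ φ : M →ₗ[ZMod p] ZMod p, φ ⟨m, hm⟩ ≠ 0 := by
      by_contra hcon
      push Not at hcon
      have := (Module.forall_dual_apply_eq_zero_iff (ZMod p) (⟨m, hm⟩ : M)).1 hcon
      exact hm0 (congrArg Subtype.val this)
    obtain ⟨φ, hφ⟩ := hex
    have hnt : Nontrivial (M →ₗ[ZMod p] ZMod p) :=
      ⟨⟨φ, 0, fun h => hφ (by rw [h]; rfl)⟩⟩
    have hdvd : p ∣ Nat.card (M →ₗ[ZMod p] ZMod p) := by
      rw [Module.natCard_eq_pow_finrank (K := ZMod p), Nat.card_zmod]
      exact dvd_pow_self p Module.finrank_pos.ne'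
    obtain ⟨f, hf, hf0⟩ := hQ.exists_fixed_point_of_prime_dvd_card_of_fixed_point
      (M →ₗ[ZMod p] ZMod p) hdvd (a := 0) (by
        intro g
        ext x
        rfl)
    apply hf0
    ext ⟨x, hx⟩
    have hx' : x ∈ aug (ZMod p) Q • M := hM hx
    have hex2 : ∃ h : x ∈ M, f ⟨x, h⟩ = 0 := by
      refine Submodule.smul_induction_on (p := fun x => ∃ h : x ∈ M, f ⟨x, h⟩ = 0) hx' ?_ ?_
      · intro r hr n hn
        refine ⟨M.smul_mem r hn, ?_⟩
        have := fixed_eval M f hf r ⟨n, hn⟩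
        have hr' : augHom (ZMod p) Q r = 0 := hr
        rw [hr', zero_mul] at this
        exact this
      · rintro y z ⟨hy, hy0⟩ ⟨hz, hz0⟩
        refine ⟨M.add_mem hy hz, ?_⟩
        have h1 : (⟨y + z, M.add_mem hy hz⟩ : M) = ⟨y, hy⟩ + ⟨z, hz⟩ := rfl
        rw [h1, map_add, hy0, hz0, add_zero]
    obtain ⟨_, h0⟩ := hex2
    exact h0.symm
  have hfinI : Finite (Ideal (MonoidAlgebra (ZMod p) Q)) :=
    Finite.of_injective (fun I => (I : Set (MonoidAlgebra (ZMod p) Q))) SetLike.coe_injective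
  obtain ⟨i, j, hij, he⟩ := Finite.exists_ne_map_eq_of_infinite
    (fun n : ℕ => (aug (ZMod p) Q) ^ n)
  have main : ∀ i j : ℕ, i < j → (aug (ZMod p) Q) ^ i = (aug (ZMod p) Q) ^ j →
      (aug (ZMod p) Q) ^ i = ⊥ := by
    intro i j hlt he
    apply key
    rw [← Ideal.IsTwoSided.pow_succ]
    calc (aug (ZMod p) Q) ^ i = (aug (ZMod p) Q) ^ j := he
      _ ≤ (aug (ZMod p) Q) ^ (i + 1) := Ideal.pow_le_pow_right hlt
  rcases lt_or_gt_of_ne hij with h | h
  · exact ⟨i, main i j h he⟩
  · exact ⟨j, main j i h he.symm⟩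

end Pool.Agent.Helper32.PK.NILP
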